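import Pool.Agent.H986R3.SOAFinal

set_option autoImplicit false

/-!
No `Pi^1_1`-sound, `Sigma^1_1`-definable extension of `ACA_0` proves its own `Pi^1_1`-soundness.
All definitions (language, structures, provability, `ACA_0`, Goedel numbering, arithmetizations,
the reflection sentence) are in `Pool/Agent/H986R3/SOADefs.lean`; the Goedel numbering is injective
by `Fm.code_inj`.

Idea of the proof. Let `τ(a) = ∃ X θ(a, X)` define `T`. The usual provability predicate `Pr_τ` need
not be `Sigma^1_1` over `ACA_0`, but the strong predicate `Prs_τ(x)`: there are a proof `p` of `x`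
and a set `W` such that `θ(a, W_(a+1))` holds for each axiom `a` used in `p`, is `Sigma^1_1`, it
implies `Pr_τ` in `ACA_0`, and it holds in the standard model for each theorem of `T`. Let `γ` be
the `Pi^1_1` Goedel sentence saying that `γ` is not strongly provable. If `T` proves the
`Pi^1_1`-soundness of `τ`, then `T` proves `γ`; so `γ` is false in the standard model, which
contradicts the `Pi^1_1`-soundness of `T`.
-/

namespace Pool.Agent.Results.MP_3ad381_lc.NoSelfSoundness

open Pool.Agent.H986R3.SOA

/-- For every arithmetization of the metamathematics of `L_2`: there is no theory that extends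
`ACA_0`, is `Pi^1_1`-sound and `Sigma^1_1`-definable, and proves its own `Pi^1_1`-soundness. -/
theorem result (𝒜 : Arithmetization) :
    ¬ ∃ T : Set Fm, ExtendsACA0 T ∧ Pi11Sound T ∧ ProvesOwnSoundness 𝒜 T := by
  rintro ⟨T, hT, hS, hP⟩
  exact main 𝒜 T hT hS hP

end Pool.Agent.Results.MP_3ad381_lc.NoSelfSoundness
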